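import Pool.Agent.MP_3a8451_pr.Mg.Ex4

open Filter Topology Pool.Agent.MP_3a8451_pr
open scoped NNReal

/-- For every small intensity the one-arm exponent of loop percolation on the three-dimensional
lattice exists. -/
theorem Pool.Agent.Results.MP_3a8451_pr.ExponentExists.result :
    ∃ α₀ : ℝ, 0 < α₀ ∧ ∀ α : ℝ≥0, 0 < α → (α : ℝ) < α₀ →
      ∃ c : ℝ, Tendsto (fun n : ℕ => Real.log (arm α n) / Real.log n) atTop (𝓝 c) :=
  exists_exponent
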