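import Pool.Agent.MP_3a8451_pr.Mg.Soup

open MeasureTheory ProbabilityTheory Pool.Agent.MP_3a8451_pr
open scoped NNReal

/-- The one-arm probability of loop percolation on the three-dimensional lattice is at most
`C α n ^ (-1 + C α)`. -/
theorem Pool.Agent.Results.MP_3a8451_pr.LinearExponent.result :
    ∃ C : ℝ, ∀ α : ℝ≥0, 0 < α → ∀ n : ℕ, 1 ≤ n →
      arm α n ≤ C * α * (n : ℝ) ^ (-1 + C * α) := by
  refine ⟨2 ^ 119, fun α _ n hn => ?_⟩
  have n1 : (1 : ℝ) ≤ n := Nat.one_le_cast.2 hn
  have a0 := NNReal.coe_nonneg α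
  rcases le_total 1 ((2 : ℝ) ^ 119 * α) with h | h
  · have : IsProbabilityMeasure (soup α) := by unfold soup; infer_instance
    exact measureReal_le_one.trans
      (one_le_mul_of_one_le_of_one_le h (Real.one_le_rpow n1 (by linarith)))
  · exact (arm_small (by linarith) hn).trans (mul_le_mul (by linarith)
      (Real.rpow_le_rpow_of_exponent_le n1 (by linarith)) (by positivity) (by positivity))
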